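import Pool.Agent.Y714.KE.Stm
import Pool.Agent.Y379.KF.Box

/-! (BOX): points of a box with different sides in residue classes (adapted from the module
Pool.Agent.Y379.KF.Box of helper379). -/

set_option autoImplicit false

namespace Pool.Agent.Y333.KE

open Pool.Agent.Y714.KE

theorem box : S_BOX := by
  classical
  intro ι _ R hR
  refine ⟨(2 * R + 2) ^ Fintype.card ι, by positivity, ?_⟩
  intro p hp Y hY T
  have hp0 : (0 : ℝ) < p := by exact_mod_cast hp
  have hY0 : ∀ i, 0 < Y i := fun i => lt_of_lt_of_le hp0 (hY i)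
  have hYp : ∀ i, 1 ≤ Y i / p := fun i => (one_le_div₀ hp0).2 (hY i)
  have : NeZero p := ⟨by omega⟩
  have hcl : ∀ (i : ι) (t : ZMod p), ∃ A : Finset ℤ,
      (∀ k : ℤ, (|(k : ℝ)| ≤ R * Y i ∧ (k : ZMod p) = t) → k ∈ A) ∧
      (A.card : ℝ) ≤ 2 * (R * Y i) / p + 2 := fun i t =>
    Pool.Agent.Y379.KF.class1 hp (R * Y i) (mul_nonneg hR.le (hY0 i).le) t
  choose A hA hAc using hcl
  have hTf : T.Finite := Set.toFinite T
  set F : Finset (ι → ℤ) := hTf.toFinset.biUnion
    (fun t => Fintype.piFinset fun i => A i (t i)) with hF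
  have hsub : {z : ι → ℤ | (∀ i, |(z i : ℝ)| ≤ R * Y i) ∧ (fun i => (z i : ZMod p)) ∈ T} ⊆
      (F : Set (ι → ℤ)) := by
    rintro z ⟨hz, hzT⟩
    rw [Finset.mem_coe, hF, Finset.mem_biUnion]
    refine ⟨fun i => (z i : ZMod p), hTf.mem_toFinset.2 hzT, ?_⟩
    rw [Fintype.mem_piFinset]
    intro i
    apply hA
    exact ⟨hz i, rfl⟩
  refine ⟨Set.Finite.subset (Finset.finite_toSet F) hsub, ?_⟩
  have h1 : {z : ι → ℤ | (∀ i, |(z i : ℝ)| ≤ R * Y i) ∧
      (fun i => (z i : ZMod p)) ∈ T}.ncard ≤ F.card := by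
    have := Set.ncard_le_ncard hsub (Finset.finite_toSet F)
    rwa [Set.ncard_coe_finset] at this
  have h2 : (F.card : ℝ) ≤ ∑ t ∈ hTf.toFinset, ∏ i, ((2 * R + 2) * (Y i / p)) := by
    have h3 : (F.card : ℝ) ≤ ∑ t ∈ hTf.toFinset,
        ((Fintype.piFinset fun i => A i (t i)).card : ℝ) := by
      exact_mod_cast Finset.card_biUnion_le
    refine h3.trans (Finset.sum_le_sum ?_)
    intro t _
    rw [Fintype.card_piFinset]
    push_cast
    refine Finset.prod_le_prod (fun i _ => by positivity) fun i _ => ?_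
    refine (hAc i (t i)).trans ?_
    have h4 : 2 * (R * Y i) / p = 2 * R * (Y i / p) := by ring
    rw [h4]
    nlinarith [hYp i]
  have h5 : (hTf.toFinset.card : ℝ) = T.ncard := by
    rw [Set.ncard_eq_toFinset_card T hTf]
  rw [Finset.sum_const, nsmul_eq_mul, h5, Finset.prod_mul_distrib, Finset.prod_const,
    Finset.card_univ] at h2
  calc ({z : ι → ℤ | (∀ i, |(z i : ℝ)| ≤ R * Y i) ∧ (fun i => (z i : ZMod p)) ∈ T}.ncard : ℝ)
      ≤ (F.card : ℝ) := by exact_mod_cast h1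
    _ ≤ _ := h2
    _ = _ := by ring

end Pool.Agent.Y333.KE
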